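import Mathlib

set_option autoImplicit false

/-!
# A planar graph on 58 vertices that is not a union of two induced pseudoforests (combinatorial core)
-/

namespace Pool.Agent.V11194.BiHeavy

/-! ### The data -/

/-- Edges of the ten-vertex triangulation `T`, outer face `0 1 2`. -/
def ET : List (ℕ × ℕ) := [(0, 1), (0, 2), (0, 4), (0, 5), (0, 7), (0, 8), (1, 2), (1, 3), (1, 6),
  (1, 7), (2, 3), (2, 8), (3, 6), (3, 8), (3, 9), (4, 5), (4, 8), (4, 9), (5, 6), (5, 7), (5, 9),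
  (6, 7), (6, 9), (8, 9)]

/-- Edges of `T` touching the interior. -/
def ETi : List (ℕ × ℕ) := ET.filter fun e => decide (3 ≤ e.2)

/-- Inner faces of `T`. -/
def FT : List (ℕ × ℕ × ℕ) := [(3, 6, 1), (6, 3, 9), (3, 1, 2), (3, 2, 8), (3, 8, 9), (0, 4, 8),
  (4, 0, 5), (5, 0, 7), (7, 0, 1), (2, 0, 8), (4, 5, 9), (8, 4, 9), (5, 6, 9), (6, 5, 7), (6, 7, 1)]

/-- Induced subtrees in the interior of `T`. -/
def ST : List (List ℕ) := [[4], [7], [3, 8], [6, 7], [4, 5, 7], [4, 6, 7, 9], [3, 4, 5, 7, 8],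
  [3, 4, 6, 7, 8]]

/-- Edges of the pentagonal bipyramid `P`, outer face `0 1 2`. -/
def EP : List (ℕ × ℕ) := [(0, 1), (0, 2), (0, 4), (0, 5), (0, 6), (1, 2), (1, 3), (1, 4), (2, 3),
  (2, 6), (3, 4), (3, 5), (3, 6), (4, 5), (5, 6)]

/-- Edges of `P` touching the interior. -/
def EPi : List (ℕ × ℕ) := EP.filter fun e => decide (3 ≤ e.2)

/-- Inner faces of `P` other than `2 1 3` and `4 5 3`. -/
def FP : List (ℕ × ℕ × ℕ) := [(3, 1, 4), (0, 4, 1), (0, 5, 4), (3, 5, 6), (0, 6, 5), (3, 6, 2),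
  (0, 2, 6)]

/-- Induced subtrees in the interior of `P`. -/
def SP : List (List ℕ) := [[4], [6], [5, 6]]

/-- Three faces of `K₄`. -/
def kf (j i : ℕ) : ℕ := ([[0, 1, 3], [1, 2, 3], [2, 0, 3]].getD j []).getD i 0

/-- The embedding of `P` into the `j`-th face of `K₄`. -/
def pv (j i : ℕ) : ℕ := if i < 3 then kf j i else 4 + 18 * j + (i - 3)

/-- The embedding of `T` into the faces `2 1 3` and `4 5 3` of the `j`-th copy of `P`. -/
def tv (j s i : ℕ) : ℕ :=
  if i < 3 then pv j (([[2, 1, 3], [4, 5, 3]].getD s []).getD i 0)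
  else 4 + 18 * j + 4 + 7 * s + (i - 3)

def LK : List (ℕ × ℕ) := [(0, 1), (0, 2), (0, 3), (1, 2), (1, 3), (2, 3)]

def LP (j : ℕ) : List (ℕ × ℕ) := EPi.map fun e => (pv j e.1, pv j e.2)

def LT (j s : ℕ) : List (ℕ × ℕ) := ETi.map fun e => (tv j s e.1, tv j s e.2)

/-- All 168 edges. -/
def L : List (ℕ × ℕ) :=
  LK ++ (LP 0 ++ (LP 1 ++ (LP 2 ++ (LT 0 0 ++ (LT 0 1 ++ (LT 1 0 ++ (LT 1 1 ++
    (LT 2 0 ++ LT 2 1))))))))

/-! ### Masks -/

lemma exists_mask (n : ℕ) (χ : ℕ → Bool) : ∃ m < 2 ^ n, ∀ i < n, m.testBit i = χ i := by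
  induction n with
  | zero => exact ⟨0, by norm_num, fun i hi => absurd hi (Nat.not_lt_zero i)⟩
  | succ n ih =>
    obtain ⟨m, hm, h⟩ := ih
    cases hχ : χ n with
    | true =>
      refine ⟨2 ^ n + m, by rw [pow_succ]; omega, fun i hi => ?_⟩
      rcases Nat.lt_succ_iff_lt_or_eq.1 hi with hi | rfl
      · rw [Nat.testBit_two_pow_add_gt hi]; exact h i hi
      · rw [Nat.testBit_two_pow_add_eq, Nat.testBit_lt_two_pow hm, hχ]; rfl
    | false =>
      refine ⟨m, by rw [pow_succ]; omega, fun i hi => ?_⟩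
      rcases Nat.lt_succ_iff_lt_or_eq.1 hi with hi | rfl
      · exact h i hi
      · rw [Nat.testBit_lt_two_pow hm, hχ]

def mF (χ : ℕ → Bool) (f : ℕ × ℕ × ℕ) : Bool := χ f.1 == χ f.2.1 && χ f.2.1 == χ f.2.2

def mE (χ : ℕ → Bool) (e : ℕ × ℕ) : Bool := χ e.1 == χ e.2

def closedB (E : List (ℕ × ℕ)) (χ : ℕ → Bool) (S : List ℕ) : Bool :=
  E.all fun e => (χ e.1 != χ e.2) || (S.contains e.1 == S.contains e.2)

def oF (χ : ℕ → Bool) (f : ℕ × ℕ × ℕ) : ℕ := if mF χ f then 1 else 0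

def chkT1 (χ : ℕ → Bool) : Bool :=
  FT.any (mF χ) || (χ 0 != χ 1) || ST.any (closedB ET χ)

def chkT2 (χ : ℕ → Bool) : Bool :=
  (ETi.filter (mE χ)).length + oF χ (0, 1, 2) == 7 + (FT.filter (mF χ)).length

def chkP1 (χ : ℕ → Bool) : Bool :=
  FP.any (mF χ) || (χ 1 == χ 2) || (χ 4 == χ 5) || SP.any (closedB EP χ)

def chkP2 (χ : ℕ → Bool) : Bool :=
  (EPi.filter (mE χ)).length + oF χ (0, 1, 2) ==
    4 + (FP.filter (mF χ)).length + oF χ (2, 1, 3) + oF χ (4, 5, 3)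

def chkK (χ : ℕ → Bool) : Bool :=
  decide (2 + oF χ (0, 1, 3) + oF χ (1, 2, 3) + oF χ (2, 0, 3) ≤ (LK.filter (mE χ)).length)

lemma allT1 : ((List.range (2 ^ 10)).all fun m => chkT1 (Nat.testBit m)) = true := by
  decide +kernel

lemma allT2 : ((List.range (2 ^ 10)).all fun m => chkT2 (Nat.testBit m)) = true := by
  decide +kernel

lemma allP1 : ((List.range (2 ^ 7)).all fun m => chkP1 (Nat.testBit m)) = true := by
  decide +kernel

lemma allP2 : ((List.range (2 ^ 7)).all fun m => chkP2 (Nat.testBit m)) = true := by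
  decide +kernel

lemma allK : ((List.range (2 ^ 4)).all fun m => chkK (Nat.testBit m)) = true := by
  decide +kernel

/-- transport of a check along a mask -/
lemma transport {n : ℕ} {chk : (ℕ → Bool) → Bool}
    (hall : ((List.range (2 ^ n)).all fun m => chk (Nat.testBit m)) = true)
    (hcongr : ∀ χ χ' : ℕ → Bool, (∀ i < n, χ i = χ' i) → chk χ = chk χ') (χ : ℕ → Bool) :
    chk χ = true := by
  obtain ⟨m, hm, h⟩ := exists_mask n χ
  rw [← hcongr _ χ h]
  exact List.all_eq_true.1 hall m (List.mem_range.2 hm)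

lemma any_congr' {α : Type*} {l : List α} {p q : α → Bool} (h : ∀ a ∈ l, p a = q a) :
    l.any p = l.any q := by
  induction l with
  | nil => rfl
  | cons a l ih =>
    simp only [List.any_cons]
    rw [h a (by simp), ih fun b hb => h b (by simp [hb])]

lemma all_congr' {α : Type*} {l : List α} {p q : α → Bool} (h : ∀ a ∈ l, p a = q a) :
    l.all p = l.all q := by
  induction l with
  | nil => rfl
  | cons a l ih =>
    simp only [List.all_cons]
    rw [h a (by simp), ih fun b hb => h b (by simp [hb])]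

lemma mF_congr {χ χ' : ℕ → Bool} {n : ℕ} (h : ∀ i < n, χ i = χ' i) {f : ℕ × ℕ × ℕ}
    (hf : f.1 < n ∧ f.2.1 < n ∧ f.2.2 < n) : mF χ f = mF χ' f := by
  unfold mF
  rw [h _ hf.1, h _ hf.2.1, h _ hf.2.2]

lemma mE_congr {χ χ' : ℕ → Bool} {n : ℕ} (h : ∀ i < n, χ i = χ' i) {e : ℕ × ℕ}
    (he : e.1 < n ∧ e.2 < n) : mE χ e = mE χ' e := by
  unfold mE
  rw [h _ he.1, h _ he.2]

lemma oF_congr {χ χ' : ℕ → Bool} {n : ℕ} (h : ∀ i < n, χ i = χ' i) {f : ℕ × ℕ × ℕ}
    (hf : f.1 < n ∧ f.2.1 < n ∧ f.2.2 < n) : oF χ f = oF χ' f := by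
  unfold oF
  rw [mF_congr h hf]

lemma closedB_congr {χ χ' : ℕ → Bool} {n : ℕ} (h : ∀ i < n, χ i = χ' i) {E : List (ℕ × ℕ)}
    (hE : ∀ e ∈ E, e.1 < n ∧ e.2 < n) (S : List ℕ) : closedB E χ S = closedB E χ' S := by
  unfold closedB
  apply all_congr'
  intro e he
  rw [h _ (hE e he).1, h _ (hE e he).2]

lemma bT : ∀ e ∈ ET, e.1 < 10 ∧ e.2 < 10 := by decide
lemma bTi : ∀ e ∈ ETi, e.1 < 10 ∧ e.2 < 10 := by decide
lemma bFT : ∀ f ∈ FT, f.1 < 10 ∧ f.2.1 < 10 ∧ f.2.2 < 10 := by decide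
lemma bP : ∀ e ∈ EP, e.1 < 7 ∧ e.2 < 7 := by decide
lemma bPi : ∀ e ∈ EPi, e.1 < 7 ∧ e.2 < 7 := by decide
lemma bFP : ∀ f ∈ FP, f.1 < 7 ∧ f.2.1 < 7 ∧ f.2.2 < 7 := by decide
lemma bK : ∀ e ∈ LK, e.1 < 4 ∧ e.2 < 4 := by decide

lemma chkT1_true (χ : ℕ → Bool) : chkT1 χ = true := by
  refine transport allT1 (fun χ χ' h => ?_) χ
  unfold chkT1
  rw [any_congr' fun f hf => mF_congr h (bFT f hf), h 0 (by norm_num), h 1 (by norm_num),
    any_congr' fun S _ => closedB_congr h bT S]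

lemma chkT2_true (χ : ℕ → Bool) : chkT2 χ = true := by
  refine transport allT2 (fun χ χ' h => ?_) χ
  unfold chkT2
  rw [List.filter_congr fun e he => mE_congr h (bTi e he),
    List.filter_congr fun f hf => mF_congr h (bFT f hf), oF_congr h (by norm_num)]

lemma chkP1_true (χ : ℕ → Bool) : chkP1 χ = true := by
  refine transport allP1 (fun χ χ' h => ?_) χ
  unfold chkP1
  rw [any_congr' fun f hf => mF_congr h (bFP f hf), h 1 (by norm_num), h 2 (by norm_num),
    h 4 (by norm_num), h 5 (by norm_num), any_congr' fun S _ => closedB_congr h bP S]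

lemma chkP2_true (χ : ℕ → Bool) : chkP2 χ = true := by
  refine transport allP2 (fun χ χ' h => ?_) χ
  unfold chkP2
  rw [List.filter_congr fun e he => mE_congr h (bPi e he),
    List.filter_congr fun f hf => mF_congr h (bFP f hf), oF_congr h (by norm_num),
    oF_congr h (f := (2, 1, 3)) (by norm_num), oF_congr h (f := (4, 5, 3)) (by norm_num)]

lemma chkK_true (χ : ℕ → Bool) : chkK χ = true := by
  refine transport allK (fun χ χ' h => ?_) χ
  unfold chkK
  rw [List.filter_congr fun e he => mE_congr h (bK e he), oF_congr h (f := (0, 1, 3)) (by norm_num),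
    oF_congr h (f := (1, 2, 3)) (by norm_num), oF_congr h (f := (2, 0, 3)) (by norm_num)]

/-! ### Counting owned edges -/

lemma count_lemma (O : ℕ → ℕ → Prop) (h3 : ∀ a b, O a b → ¬ O b a) (S : Finset ℕ)
    (Es : Finset (ℕ × ℕ)) (h : ∀ a ∈ S, ∃ b, O a b ∧ ((a, b) ∈ Es ∨ (b, a) ∈ Es)) :
    S.card ≤ Es.card := by
  classical
  choose! b hb using h
  refine Finset.card_le_card_of_injOn (fun a => if (a, b a) ∈ Es then (a, b a) else (b a, a)) ?_ ?_
  · intro a ha
    have := (hb a ha).2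
    by_cases h1 : (a, b a) ∈ Es
    · simp [h1]
    · simp only [h1, if_false]
      exact this.resolve_left h1
  · intro a ha a' ha' he
    simp only at he
    have o := (hb a ha).1
    have o' := (hb a' ha').1
    split_ifs at he with h1 h2 h2
    · exact (Prod.mk.inj he).1
    · obtain ⟨e1, e2⟩ := Prod.mk.inj he
      rw [e2] at o
      rw [← e1] at o'
      exact absurd o' (h3 _ _ o)
    · obtain ⟨e1, e2⟩ := Prod.mk.inj he
      rw [e1] at o
      rw [← e2] at o'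
      exact absurd o' (h3 _ _ o)
    · exact (Prod.mk.inj he).2

/-- A closed subtree all of whose vertices own an edge is impossible. -/
lemma no_closed_tree (E : List (ℕ × ℕ)) (χ : ℕ → Bool) (O : ℕ → ℕ → Prop)
    (h3 : ∀ a b, O a b → ¬ O b a) (S : List ℕ) (hS : S.Nodup)
    (hlen : (E.filter fun e => S.contains e.1 && S.contains e.2).length < S.length)
    (hown : ∀ a ∈ S, ∃ b, O a b ∧ ((a, b) ∈ E ∨ (b, a) ∈ E) ∧ χ a = χ b)
    (hcl : closedB E χ S = true) : False := by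
  have hcl' := List.all_eq_true.1 hcl
  have h := count_lemma O h3 S.toFinset
    (E.filter fun e => S.contains e.1 && S.contains e.2).toFinset ?_
  · have h1 := List.toFinset_card_le (E.filter fun e => S.contains e.1 && S.contains e.2)
    rw [List.toFinset_card_of_nodup hS] at h
    omega
  · intro a ha
    rw [List.mem_toFinset] at ha
    obtain ⟨b, ho, hE, hχ⟩ := hown a ha
    refine ⟨b, ho, ?_⟩
    rcases hE with hE | hE
    · left
      have := hcl' _ hE
      simp only [hχ, bne_self_eq_false, Bool.false_or, beq_iff_eq] at this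
      rw [List.mem_toFinset, List.mem_filter]
      refine ⟨hE, ?_⟩
      simp only [← this, List.contains_iff_mem.2 ha, Bool.and_self]
    · right
      have := hcl' _ hE
      simp only [hχ, bne_self_eq_false, Bool.false_or, beq_iff_eq] at this
      rw [List.mem_toFinset, List.mem_filter]
      refine ⟨hE, ?_⟩
      simp only [this, List.contains_iff_mem.2 ha, Bool.and_self]

lemma factST : ∀ S ∈ ST, S.Nodup ∧ (∀ a ∈ S, 3 ≤ a ∧ a < 10) ∧
    (ET.filter fun e => S.contains e.1 && S.contains e.2).length < S.length := by decide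

lemma factSP : ∀ S ∈ SP, S.Nodup ∧ (∀ a ∈ S, 3 ≤ a ∧ a < 7) ∧
    (EP.filter fun e => S.contains e.1 && S.contains e.2).length < S.length := by decide

lemma T1 (χ : ℕ → Bool) (O : ℕ → ℕ → Prop) (h3 : ∀ a b, O a b → ¬ O b a)
    (h4 : ∀ a, 3 ≤ a → a < 10 → ∃ b, O a b ∧ ((a, b) ∈ ET ∨ (b, a) ∈ ET) ∧ χ a = χ b)
    (hF : ∀ f ∈ FT, mF χ f = false) : χ 0 ≠ χ 1 := by
  intro h01
  have h := chkT1_true χ
  unfold chkT1 at h
  have hany : FT.any (mF χ) = false := by
    rw [List.any_eq_false]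
    intro f hf
    rw [hF f hf]; simp
  rw [hany, h01] at h
  simp only [bne_self_eq_false, Bool.false_or] at h
  obtain ⟨S, hS, hc⟩ := List.any_eq_true.1 h
  obtain ⟨hn, hr, hl⟩ := factST S hS
  exact no_closed_tree ET χ O h3 S hn hl (fun a ha => h4 a (hr a ha).1 (hr a ha).2) hc

lemma P1 (χ : ℕ → Bool) (O : ℕ → ℕ → Prop) (h3 : ∀ a b, O a b → ¬ O b a)
    (h4 : ∀ a, 3 ≤ a → a < 7 → ∃ b, O a b ∧ ((a, b) ∈ EP ∨ (b, a) ∈ EP) ∧ χ a = χ b)
    (hF : ∀ f ∈ FP, mF χ f = false) (h12 : χ 1 ≠ χ 2) (h45 : χ 4 ≠ χ 5) : False := by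
  have h := chkP1_true χ
  unfold chkP1 at h
  have hany : FP.any (mF χ) = false := by
    rw [List.any_eq_false]
    intro f hf
    rw [hF f hf]; simp
  rw [hany, beq_eq_false_iff_ne.2 h12, beq_eq_false_iff_ne.2 h45] at h
  simp only [Bool.false_or] at h
  obtain ⟨S, hS, hc⟩ := List.any_eq_true.1 h
  obtain ⟨hn, hr, hl⟩ := factSP S hS
  exact no_closed_tree EP χ O h3 S hn hl (fun a ha => h4 a (hr a ha).1 (hr a ha).2) hc

lemma factETi : ∀ e ∈ ET, 3 ≤ e.1 ∨ 3 ≤ e.2 → e ∈ ETi := by decide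

lemma T2 (χ : ℕ → Bool) (O : ℕ → ℕ → Prop) (h3 : ∀ a b, O a b → ¬ O b a)
    (h4 : ∀ a, 3 ≤ a → a < 10 → ∃ b, O a b ∧ ((a, b) ∈ ET ∨ (b, a) ∈ ET) ∧ χ a = χ b)
    (hF : ∀ f ∈ FT, mF χ f = false) (a b : ℕ) (ha : a < 3) (hb : 3 ≤ b) (hab : (a, b) ∈ ET)
    (hO : O a b) (hχ : χ a = χ b) : False := by
  have h01 := T1 χ O h3 h4 hF
  have h := chkT2_true χ
  unfold chkT2 at h
  have e1 : FT.filter (mF χ) = [] := by
    rw [List.filter_eq_nil_iff]
    intro f hf
    rw [hF f hf]; simp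
  have e2 : oF χ (0, 1, 2) = 0 := by
    unfold oF mF
    simp [h01]
  rw [e1, e2] at h
  simp only [add_zero, List.length_nil, beq_iff_eq] at h
  have hc := count_lemma O h3 (insert a (Finset.Ico 3 10)) (ETi.filter (mE χ)).toFinset ?_
  · have h5 := List.toFinset_card_le (ETi.filter (mE χ))
    rw [Finset.card_insert_of_notMem (by simp; omega)] at hc
    simp only [Nat.card_Ico] at hc
    omega
  · intro c hc
    rw [Finset.mem_insert, Finset.mem_Ico] at hc
    rcases hc with rfl | ⟨h5, h6⟩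
    · refine ⟨b, hO, Or.inl ?_⟩
      rw [List.mem_toFinset, List.mem_filter]
      exact ⟨factETi _ hab (Or.inr hb), by simp [mE, hχ]⟩
    · obtain ⟨d, ho, hE, hχ'⟩ := h4 c h5 h6
      refine ⟨d, ho, ?_⟩
      rcases hE with hE | hE
      · left
        rw [List.mem_toFinset, List.mem_filter]
        exact ⟨factETi _ hE (Or.inl h5), by simp [mE, hχ']⟩
      · right
        rw [List.mem_toFinset, List.mem_filter]
        exact ⟨factETi _ hE (Or.inr h5), by simp [mE, hχ']⟩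

end Pool.Agent.V11194.BiHeavy
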