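import Pool.Agent.V11194.BiHeavy.Core

set_option autoImplicit false

/-!
# Gluing: the 58-vertex graph
-/

namespace Pool.Agent.V11194.BiHeavy

/-- an edge of `L` at an interior vertex of a copy of `T` is an edge of that copy of `T` -/
lemma factT : ((List.range 3).all fun j => (List.range 2).all fun s => (List.range 10).all fun a =>
    decide (a < 3) || L.all fun e =>
      ((e.1 != tv j s a) || ET.any fun e' => e'.1 == a && e.2 == tv j s e'.2) &&
      ((e.2 != tv j s a) || ET.any fun e' => e'.2 == a && e.1 == tv j s e'.1)) = true := by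
  decide +kernel

/-- an edge of `L` at an interior vertex of a copy of `P` is an edge of that copy of `P`, or of
a copy of `T` -/
lemma factP : ((List.range 3).all fun j => (List.range 7).all fun a =>
    decide (a < 3) || L.all fun e =>
      ((e.1 != pv j a) || (EP.any fun e' => e'.1 == a && e.2 == pv j e'.2) ||
        (List.range 2).any fun s => ETi.any fun e' =>
          decide (e'.1 < 3) && tv j s e'.1 == pv j a && e.2 == tv j s e'.2) &&
      ((e.2 != pv j a) || EP.any fun e' => e'.2 == a && e.1 == pv j e'.1)) = true := by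
  decide +kernel

lemma L_lt : ∀ e ∈ L, e.1 < e.2 ∧ e.2 < 58 := by decide +kernel

lemma L_nodup : L.Nodup := by decide +kernel

/-- the ownership structure -/
structure Own (χ : ℕ → Bool) (O : ℕ → ℕ → Prop) : Prop where
  h1 : ∀ v w w', O v w → O v w' → w = w'
  h2 : ∀ e ∈ L, χ e.1 = χ e.2 → O e.1 e.2 ∨ O e.2 e.1
  h3 : ∀ v w, O v w → ¬ O w v
  h4 : ∀ v w, O v w → ((v, w) ∈ L ∨ (w, v) ∈ L) ∧ χ v = χ w

variable {χ : ℕ → Bool} {O : ℕ → ℕ → Prop}

lemma ownT (H : Own χ O) {j s : ℕ} (hj : j < 3) (hs : s < 2) (a : ℕ) (ha : 3 ≤ a) (ha' : a < 10)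
    (ho : ∃ w, O (tv j s a) w) :
    ∃ b, O (tv j s a) (tv j s b) ∧ ((a, b) ∈ ET ∨ (b, a) ∈ ET) ∧ χ (tv j s a) = χ (tv j s b) := by
  obtain ⟨w, hw⟩ := ho
  obtain ⟨hL, hχ⟩ := H.h4 _ _ hw
  have h1 := List.all_eq_true.1 factT j (List.mem_range.2 hj)
  have h2 := List.all_eq_true.1 h1 s (List.mem_range.2 hs)
  have h3 := List.all_eq_true.1 h2 a (List.mem_range.2 ha')
  have h4 : decide (a < 3) = false := by simp; omega
  rw [h4, Bool.false_or] at h3
  rcases hL with hL | hL
  · have h5 := List.all_eq_true.1 h3 _ hL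
    simp only [bne_self_eq_false, Bool.false_or, Bool.and_eq_true] at h5
    obtain ⟨e', he', h6⟩ := List.any_eq_true.1 h5.1
    simp only [Bool.and_eq_true, beq_iff_eq] at h6
    refine ⟨e'.2, ?_, Or.inl ?_, ?_⟩
    · rw [← h6.2]; exact hw
    · rw [← h6.1]; exact he'
    · rw [← h6.2]; exact hχ
  · have h5 := List.all_eq_true.1 h3 _ hL
    simp only [bne_self_eq_false, Bool.false_or, Bool.and_eq_true] at h5
    obtain ⟨e', he', h6⟩ := List.any_eq_true.1 h5.2
    simp only [Bool.and_eq_true, beq_iff_eq] at h6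
    refine ⟨e'.1, ?_, Or.inr ?_, ?_⟩
    · rw [← h6.2]; exact hw
    · rw [← h6.1]; exact he'
    · rw [← h6.2]; exact hχ

lemma ownP (H : Own χ O) {j : ℕ} (hj : j < 3) (a : ℕ) (ha : 3 ≤ a) (ha' : a < 7)
    (ho : ∃ w, O (pv j a) w) :
    (∃ b, O (pv j a) (pv j b) ∧ ((a, b) ∈ EP ∨ (b, a) ∈ EP) ∧ χ (pv j a) = χ (pv j b)) ∨
    (∃ s < 2, ∃ e' ∈ ETi, e'.1 < 3 ∧ O (tv j s e'.1) (tv j s e'.2) ∧
      χ (tv j s e'.1) = χ (tv j s e'.2)) := by
  obtain ⟨w, hw⟩ := ho
  obtain ⟨hL, hχ⟩ := H.h4 _ _ hw
  have h1 := List.all_eq_true.1 factP j (List.mem_range.2 hj)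
  have h3 := List.all_eq_true.1 h1 a (List.mem_range.2 ha')
  have h4 : decide (a < 3) = false := by simp; omega
  rw [h4, Bool.false_or] at h3
  rcases hL with hL | hL
  · have h5 := List.all_eq_true.1 h3 _ hL
    simp only [bne_self_eq_false, Bool.false_or, Bool.and_eq_true, Bool.or_eq_true] at h5
    rcases h5.1 with h6 | h6
    · left
      obtain ⟨e', he', h6⟩ := List.any_eq_true.1 h6
      simp only [Bool.and_eq_true, beq_iff_eq] at h6
      refine ⟨e'.2, ?_, Or.inl ?_, ?_⟩
      · rw [← h6.2]; exact hw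
      · rw [← h6.1]; exact he'
      · rw [← h6.2]; exact hχ
    · right
      obtain ⟨s, hs, h7⟩ := List.any_eq_true.1 h6
      obtain ⟨e', he', h8⟩ := List.any_eq_true.1 h7
      simp only [Bool.and_eq_true, beq_iff_eq, decide_eq_true_eq] at h8
      refine ⟨s, List.mem_range.1 hs, e', he', h8.1.1, ?_, ?_⟩
      · rw [h8.1.2, ← h8.2]; exact hw
      · rw [h8.1.2, ← h8.2]; exact hχ
  · left
    have h5 := List.all_eq_true.1 h3 _ hL
    simp only [bne_self_eq_false, Bool.false_or, Bool.and_eq_true] at h5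
    obtain ⟨e', he', h6⟩ := List.any_eq_true.1 h5.2
    simp only [Bool.and_eq_true, beq_iff_eq] at h6
    refine ⟨e'.1, ?_, Or.inr ?_, ?_⟩
    · rw [← h6.2]; exact hw
    · rw [← h6.1]; exact he'
    · rw [← h6.2]; exact hχ

lemma tv_interior {j s a : ℕ} (ha : 3 ≤ a) : tv j s a = 4 + 18 * j + 4 + 7 * s + (a - 3) := by
  unfold tv
  rw [if_neg (by omega)]

lemma pv_interior {j a : ℕ} (ha : 3 ≤ a) : pv j a = 4 + 18 * j + (a - 3) := by
  unfold pv
  rw [if_neg (by omega)]

/-- Inside the `j`-th copy there is a monochromatic face or a vertex that owns no edge. -/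
lemma delta (H : Own χ O) {j : ℕ} (hj : j < 3)
    (hFT : ∀ s < 2, ∀ f ∈ FT, mF (fun i => χ (tv j s i)) f = false)
    (hFP : ∀ f ∈ FP, mF (fun i => χ (pv j i)) f = false)
    (hown : ∀ v, 4 + 18 * j ≤ v → v < 4 + 18 * (j + 1) → ∃ w, O v w) : False := by
  have hT : ∀ s < 2, ∀ a, 3 ≤ a → a < 10 → ∃ b, O (tv j s a) (tv j s b) ∧
      ((a, b) ∈ ET ∨ (b, a) ∈ ET) ∧ χ (tv j s a) = χ (tv j s b) := by
    intro s hs a ha ha'
    refine ownT H hj hs a ha ha' (hown _ ?_ ?_)
    · rw [tv_interior ha]; omega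
    · rw [tv_interior ha]; omega
  have hne : ∀ s < 2, χ (tv j s 0) ≠ χ (tv j s 1) := fun s hs =>
    T1 (fun i => χ (tv j s i)) (fun a b => O (tv j s a) (tv j s b)) (fun a b => H.h3 _ _)
      (hT s hs) (hFT s hs)
  have h12 : χ (pv j 1) ≠ χ (pv j 2) := (hne 0 (by norm_num)).symm
  have h45 : χ (pv j 4) ≠ χ (pv j 5) := hne 1 (by norm_num)
  refine P1 (fun i => χ (pv j i)) (fun a b => O (pv j a) (pv j b)) (fun a b => H.h3 _ _) ?_ hFP
    h12 h45
  intro a ha ha'
  rcases ownP H hj a ha ha' (hown _ (by rw [pv_interior ha]; omega)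
    (by rw [pv_interior ha]; omega)) with h | ⟨s, hs, e', he', h5, h6, h7⟩
  · exact h
  · exfalso
    have he : e' ∈ ET ∧ 3 ≤ e'.2 := by
      have := List.mem_filter.1 he'
      exact ⟨this.1, by simpa using this.2⟩
    exact T2 (fun i => χ (tv j s i)) (fun a b => O (tv j s a) (tv j s b)) (fun a b => H.h3 _ _)
      (hT s hs) (hFT s hs) e'.1 e'.2 h5 he.2 he.1 h6 h7

/-! ### The global count -/

lemma upper (H : Own χ O) (D : Finset ℕ) (hD : ∀ v ∈ D, v < 58 ∧ ∀ w, ¬ O v w) :
    (L.filter (mE χ)).length + D.card ≤ 58 := by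
  classical
  set Lm := L.filter (mE χ) with hLm
  have hnd : Lm.Nodup := L_nodup.filter _
  rw [← List.toFinset_card_of_nodup hnd]
  have key : Lm.toFinset.card ≤ (Finset.range 58 \ D).card := by
    refine Finset.card_le_card_of_injOn (fun e => if O e.1 e.2 then e.1 else e.2) ?_ ?_
    · intro e he
      rw [Finset.mem_coe, List.mem_toFinset, hLm, List.mem_filter] at he
      have hlt := L_lt e he.1
      have hm : χ e.1 = χ e.2 := by simpa [mE] using he.2
      have ho := H.h2 e he.1 hm
      simp only [Finset.coe_sdiff, Set.mem_diff, Finset.mem_coe, Finset.mem_range]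
      by_cases h : O e.1 e.2
      · simp only [h, if_true]
        exact ⟨by omega, fun hd => (hD _ hd).2 _ h⟩
      · simp only [h, if_false]
        exact ⟨by omega, fun hd => (hD _ hd).2 _ (ho.resolve_left h)⟩
    · intro e he e' he' hee
      rw [Finset.mem_coe, List.mem_toFinset, hLm, List.mem_filter] at he he'
      have hlt := L_lt e he.1
      have hlt' := L_lt e' he'.1
      have hm : χ e.1 = χ e.2 := by simpa [mE] using he.2
      have hm' : χ e'.1 = χ e'.2 := by simpa [mE] using he'.2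
      have ho := H.h2 e he.1 hm
      have ho' := H.h2 e' he'.1 hm'
      simp only at hee
      by_cases h : O e.1 e.2 <;> by_cases h' : O e'.1 e'.2
      · simp only [h, h', if_true] at hee
        rw [hee] at h
        exact Prod.ext hee (H.h1 _ _ _ h h')
      · simp only [h, h', if_true, if_false] at hee
        have h'' := ho'.resolve_left h'
        rw [hee] at h
        have := H.h1 _ _ _ h h''
        omega
      · simp only [h, h', if_true, if_false] at hee
        have h'' := ho.resolve_left h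
        rw [hee] at h''
        have := H.h1 _ _ _ h'' h'
        omega
      · simp only [h, h', if_false] at hee
        have h1 := ho.resolve_left h
        have h2 := ho'.resolve_left h'
        rw [hee] at h1
        exact Prod.ext (H.h1 _ _ _ h1 h2) hee
  have hsub : D ⊆ Finset.range 58 := fun v hv => Finset.mem_range.2 (hD v hv).1
  have h5 := Finset.card_sdiff_add_card_eq_card hsub
  rw [Finset.card_range] at h5
  omega

lemma len_map (l : List (ℕ × ℕ)) (g : ℕ → ℕ) :
    ((l.map fun e => (g e.1, g e.2)).filter (mE χ)).length =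
      (l.filter (mE fun i => χ (g i))).length := by
  rw [List.filter_map, List.length_map]
  rfl

lemma lower (C : ℕ → ℕ) (hC : ∀ j < 3, C j ≤ (FP.filter (mF fun i => χ (pv j i))).length +
    (FT.filter (mF fun i => χ (tv j 0 i))).length + (FT.filter (mF fun i => χ (tv j 1 i))).length) :
    56 + C 0 + C 1 + C 2 ≤ (L.filter (mE χ)).length := by
  have hT : ∀ j s, (LT j s |>.filter (mE χ)).length + oF (fun i => χ (tv j s i)) (0, 1, 2) =
      7 + (FT.filter (mF fun i => χ (tv j s i))).length := by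
    intro j s
    have h := chkT2_true fun i => χ (tv j s i)
    unfold chkT2 at h
    rw [beq_iff_eq] at h
    rw [← h]
    unfold LT
    rw [len_map]
  have hP : ∀ j, (LP j |>.filter (mE χ)).length + oF (fun i => χ (pv j i)) (0, 1, 2) =
      4 + (FP.filter (mF fun i => χ (pv j i))).length + oF (fun i => χ (pv j i)) (2, 1, 3) +
        oF (fun i => χ (pv j i)) (4, 5, 3) := by
    intro j
    have h := chkP2_true fun i => χ (pv j i)
    unfold chkP2 at h
    rw [beq_iff_eq] at h
    rw [← h]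
    unfold LP
    rw [len_map]
  have hK := chkK_true χ
  unfold chkK at hK
  rw [decide_eq_true_eq] at hK
  have e0 : ∀ j, oF (fun i => χ (tv j 0 i)) (0, 1, 2) = oF (fun i => χ (pv j i)) (2, 1, 3) :=
    fun j => rfl
  have e1 : ∀ j, oF (fun i => χ (tv j 1 i)) (0, 1, 2) = oF (fun i => χ (pv j i)) (4, 5, 3) :=
    fun j => rfl
  have k0 : oF (fun i => χ (pv 0 i)) (0, 1, 2) = oF χ (0, 1, 3) := rfl
  have k1 : oF (fun i => χ (pv 1 i)) (0, 1, 2) = oF χ (1, 2, 3) := rfl
  have k2 : oF (fun i => χ (pv 2 i)) (0, 1, 2) = oF χ (2, 0, 3) := rfl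
  have a1 := hT 0 0; have a2 := hT 0 1; have a3 := hT 1 0
  have a4 := hT 1 1; have a5 := hT 2 0; have a6 := hT 2 1
  have b1 := hP 0; have b2 := hP 1; have b3 := hP 2
  have c1 := hC 0 (by norm_num); have c2 := hC 1 (by norm_num); have c3 := hC 2 (by norm_num)
  rw [e0] at a1 a3 a5
  rw [e1] at a2 a4 a6
  rw [k0] at b1
  rw [k1] at b2
  rw [k2] at b3
  unfold L
  simp only [List.filter_append, List.length_append]
  omega

theorem core (H : Own χ O) : False := by
  classical
  -- for each copy: a monochromatic face or a vertex owning nothing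
  have hcase : ∀ j < 3, (1 ≤ (FP.filter (mF fun i => χ (pv j i))).length +
      (FT.filter (mF fun i => χ (tv j 0 i))).length +
      (FT.filter (mF fun i => χ (tv j 1 i))).length) ∨
      (∃ v, 4 + 18 * j ≤ v ∧ v < 4 + 18 * (j + 1) ∧ ∀ w, ¬ O v w) := by
    intro j hj
    by_contra hcon
    push Not at hcon
    obtain ⟨h1, h2⟩ := hcon
    have z1 : (FP.filter (mF fun i => χ (pv j i))).length = 0 := by omega
    have z2 : (FT.filter (mF fun i => χ (tv j 0 i))).length = 0 := by omega
    have z3 : (FT.filter (mF fun i => χ (tv j 1 i))).length = 0 := by omega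
    rw [List.length_eq_zero_iff, List.filter_eq_nil_iff] at z1 z2 z3
    refine delta H hj ?_ ?_ h2
    · intro s hs f hf
      interval_cases s
      · exact Bool.eq_false_iff.2 (z2 f hf)
      · exact Bool.eq_false_iff.2 (z3 f hf)
    · intro f hf
      exact Bool.eq_false_iff.2 (z1 f hf)
  -- choose
  have hch : ∀ j < 3, ∃ c : ℕ, ∃ D : Finset ℕ, c + D.card = 1 ∧
      c ≤ (FP.filter (mF fun i => χ (pv j i))).length +
      (FT.filter (mF fun i => χ (tv j 0 i))).length +
      (FT.filter (mF fun i => χ (tv j 1 i))).length ∧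
      ∀ v ∈ D, 4 + 18 * j ≤ v ∧ v < 4 + 18 * (j + 1) ∧ ∀ w, ¬ O v w := by
    intro j hj
    rcases hcase j hj with h | ⟨v, hv⟩
    · exact ⟨1, ∅, by simp, h, by simp⟩
    · exact ⟨0, {v}, by simp, Nat.zero_le _, fun u hu => by
        rw [Finset.mem_singleton] at hu; rw [hu]; exact hv⟩
  obtain ⟨c0, D0, s0, l0, d0⟩ := hch 0 (by norm_num)
  obtain ⟨c1, D1, s1, l1, d1⟩ := hch 1 (by norm_num)
  obtain ⟨c2, D2, s2, l2, d2⟩ := hch 2 (by norm_num)
  have hlow := lower (χ := χ) (fun j => if j = 0 then c0 else if j = 1 then c1 else c2) (by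
    intro j hj
    interval_cases j
    · simpa using l0
    · simpa using l1
    · simpa using l2)
  simp only [if_true, one_ne_zero, if_false, OfNat.ofNat_ne_zero, OfNat.ofNat_ne_one] at hlow
  have hdis1 : Disjoint D0 D1 := by
    rw [Finset.disjoint_left]
    intro v h0 h1
    have := d0 v h0; have := d1 v h1
    omega
  have hdis2 : Disjoint (D0 ∪ D1) D2 := by
    rw [Finset.disjoint_left]
    intro v h0 h1
    have := d2 v h1
    rcases Finset.mem_union.1 h0 with h | h
    · have := d0 v h; omega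
    · have := d1 v h; omega
  have hup := upper H (D0 ∪ D1 ∪ D2) (by
    intro v hv
    rcases Finset.mem_union.1 hv with h | h
    · rcases Finset.mem_union.1 h with h | h
      · exact ⟨by have := d0 v h; omega, (d0 v h).2.2⟩
      · exact ⟨by have := d1 v h; omega, (d1 v h).2.2⟩
    · exact ⟨by have := d2 v h; omega, (d2 v h).2.2⟩)
  rw [Finset.card_union_of_disjoint hdis2, Finset.card_union_of_disjoint hdis1] at hup
  omega

end Pool.Agent.V11194.BiHeavy
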